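import Pool.Agent.H25.Flat10b

namespace Pool.Agent.Results.MP_abc6c1_co.InverseF32

open Pool.Agent.H25.Flat10

abbrev F := GaloisField 2 5

def IsAPN (f : F → F) : Prop := ∀ a b : F, a ≠ 0 → {x | f (x + a) + f x = b}.ncard ≤ 2

/-- `R` is a nontrivial relative difference set in `(F,+)` relative to `N` with index `lam` -/
def IsRDS (R : Set F) (N : AddSubgroup F) (lam : ℕ) : Prop :=
  (∀ d, d ∉ N → {p : F × F | p.1 ∈ R ∧ p.2 ∈ R ∧ p.1 ≠ p.2 ∧ p.1 - p.2 = d}.ncard = lam) ∧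
  (∀ d ∈ N, d ≠ 0 → ¬ ∃ r ∈ R, ∃ r' ∈ R, r ≠ r' ∧ r - r' = d) ∧
  2 ≤ R.ncard ∧ R.ncard ≤ Nat.card F - 2

def GivesRDS (g : F → F) : Prop := ∃ N lam, IsRDS (Set.range g) N lam

def EAEquiv (f g : F → F) : Prop :=
  ∃ (A B : F ≃ᵃ[ZMod 2] F) (C : F →ᵃ[ZMod 2] F), ∀ x, g x = A (f (B x)) + C x

def graph (f : F → F) : Set (F × F) := {p | p.2 = f p.1}

def CCZEquiv (f g : F → F) : Prop := ∃ Φ : (F × F) ≃ᵃ[ZMod 2] (F × F), Φ '' graph f = graph g

def dec (n : ℕ) : Fin 5 → ZMod 2 := fun i => if n.testBit i then 1 else 0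

theorem dec_xor (a b : ℕ) : dec (a ^^^ b) = dec a + dec b := by
  funext i
  simp only [dec, Nat.testBit_xor, Pi.add_apply]
  cases a.testBit i <;> cases b.testBit i <;> decide

theorem dec_mod (a : ℕ) : dec (a % 32) = dec a := by
  funext i
  have : (a % 2 ^ 5).testBit i = a.testBit i := by rw [Nat.testBit_mod_two_pow]; simp
  simp only [dec]; rw [← this]; rfl

theorem dec_inj : ∀ a < 32, ∀ b < 32, dec a = dec b → a = b := by decide +kernel

theorem dec_surj : ∀ u : Fin 5 → ZMod 2, ∃ a < 32, dec a = u := by decide +kernel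

noncomputable def e : F ≃ₗ[ZMod 2] (Fin 5 → ZMod 2) :=
  LinearEquiv.ofFinrankEq _ _ (by rw [GaloisField.finrank 2 (by norm_num)]; simp)

noncomputable def φ (n : ℕ) : F := e.symm (dec n)

theorem φ_xor (a b : ℕ) : φ (a ^^^ b) = φ a + φ b := by simp [φ, dec_xor]

theorem φ_inj {a b : ℕ} (ha : a < 32) (hb : b < 32) (h : φ a = φ b) : a = b :=
  dec_inj a ha b hb (e.symm.injective h)

theorem φ_surj (x : F) : ∃ a < 32, φ a = x := by
  obtain ⟨a, ha, h⟩ := dec_surj (e x)
  exact ⟨a, ha, by simp [φ, h]⟩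

noncomputable def enc (x : F) : ℕ := (φ_surj x).choose
theorem enc_lt (x : F) : enc x < 32 := (φ_surj x).choose_spec.1
theorem φ_enc (x : F) : φ (enc x) = x := (φ_surj x).choose_spec.2
theorem enc_φ {a : ℕ} (ha : a < 32) : enc (φ a) = a := φ_inj (enc_lt _) ha (φ_enc _)
theorem xlt {a b : ℕ} (ha : a < 32) (hb : b < 32) : a ^^^ b < 32 := Nat.xor_lt_two_pow (n := 5) ha hb
theorem enc_add (x y : F) : enc (x + y) = enc x ^^^ enc y :=
  φ_inj (enc_lt _) (xlt (enc_lt _) (enc_lt _)) (by rw [φ_xor, φ_enc, φ_enc, φ_enc])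

/-- the table of `x ↦ x^30` in `F_2[t]/(t^5+t^2+1)` -/
def tab (x : ℕ) : ℕ := (1262539949331657191584015143012150064589853050912 >>> (5 * x)) % 32

theorem tab_lt (x : ℕ) : tab x < 32 := Nat.mod_lt _ (by norm_num)

noncomputable def f (x : F) : F := φ (tab (enc x))

theorem tab_apn : ∀ a < 32, a ≠ 0 → ∀ b < 32,
    ((Finset.range 32).filter fun x => tab (x ^^^ a) ^^^ tab x = b).card ≤ 2 := by decide +kernel

theorem S_spec : ∀ j < 1024, S.testBit j = true ∨ ∃ x < 32, j % 32 = tab (x ^^^ (j >>> 5)) ^^^ tab x := by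
  decide +kernel

theorem φ_zero : φ 0 = 0 := by
  have := φ_xor 0 0
  simpa using this

theorem apn : IsAPN f := by
  intro a b ha
  have h0 : enc a ≠ 0 := fun h => ha (by rw [← φ_enc a, h, φ_zero])
  refine le_trans ?_ (tab_apn _ (enc_lt a) h0 _ (enc_lt b))
  rw [← Set.ncard_coe_finset]
  refine Set.ncard_le_ncard_of_injOn enc (fun x hx => ?_) (fun x _ y _ h => by rw [← φ_enc x, h, φ_enc])
    (Finset.finite_toSet _)
  have hx' : f (x + a) + f x = b := hx
  simp only [Finset.coe_filter, Finset.mem_range, Set.mem_ofPred_eq]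
  refine ⟨enc_lt x, φ_inj (xlt (tab_lt _) (tab_lt _)) (enc_lt b) ?_⟩
  rw [φ_xor, φ_enc, ← enc_add]; exact hx'

noncomputable def ψ (n : ℕ) : F × F := (φ (n >>> 5), φ n)

theorem ψ_xor (a b : ℕ) : ψ (a ^^^ b) = ψ a + ψ b := by
  simp [ψ, Nat.shiftRight_xor_distrib, φ_xor]

theorem ψ_surj (p : F × F) : ∃ n < 1024, ψ n = p := by
  have h1 := enc_lt p.1
  have h2 := enc_lt p.2
  refine ⟨32 * enc p.1 + enc p.2, by omega, Prod.ext ?_ ?_⟩
  · show φ ((32 * enc p.1 + enc p.2) >>> 5) = p.1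
    rw [Nat.shiftRight_eq_div_pow, show (32 * enc p.1 + enc p.2) / 2 ^ 5 = enc p.1 by omega, φ_enc]
  · show φ (32 * enc p.1 + enc p.2) = p.2
    have : φ (32 * enc p.1 + enc p.2) = φ ((32 * enc p.1 + enc p.2) % 32) := by simp only [φ, dec_mod]
    rw [this, show (32 * enc p.1 + enc p.2) % 32 = enc p.2 by omega, φ_enc]

theorem cardF : Nat.card F = 32 := by rw [GaloisField.card 2 5 (by norm_num)]; norm_num

theorem two_F (x : F) : x + x = 0 := CharTwo.add_self_eq_zero x

theorem key (g : F → F) (Ψ : F × F →+ F × F) (hΨ : Function.Injective Ψ)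
    (h : ∀ p x y, Ψ p = (x - y, f x - f y) → ∃ x' y', p.2 = g x' - g y') (c : F) :
    ∃ x y, c = g x - g y := by
  classical
  obtain ⟨w, hw, hw'⟩ := ψ_surj (Ψ (0, c))
  choose n hn hn' using fun a : F => ψ_surj (Ψ (a, 0))
  have : Fintype F := Fintype.ofFinite F
  obtain ⟨v, hv, hS⟩ := no_flat ((Finset.range 1024).filter fun m => ∃ a, ψ m = Ψ (a, 0))
    (fun a ha => Finset.mem_range.1 (Finset.mem_filter.1 ha).1)
    (fun a ha b hb => by
      obtain ⟨ha1, x, hx⟩ := Finset.mem_filter.1 ha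
      obtain ⟨hb1, y, hy⟩ := Finset.mem_filter.1 hb
      refine Finset.mem_filter.2 ⟨Finset.mem_range.2 (Nat.xor_lt_two_pow (n := 10) (Finset.mem_range.1 ha1)
        (Finset.mem_range.1 hb1)), x + y, ?_⟩
      rw [ψ_xor, hx, hy, ← map_add]; simp)
    (by
      rw [← cardF, Nat.card_eq_fintype_card, ← Finset.card_univ]
      refine Finset.card_le_card_of_injOn n (fun a _ => ?_) (fun a _ b _ hab => ?_)
      · exact Finset.mem_coe.2 (Finset.mem_filter.2 ⟨Finset.mem_range.2 (hn a), a, hn' a⟩)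
      · have : Ψ (a, 0) = Ψ (b, 0) := by rw [← hn', ← hn', hab]
        exact (Prod.ext_iff.1 (hΨ this)).1) w hw
  obtain ⟨hv1, a, ha⟩ := Finset.mem_filter.1 hv
  have hj : w ^^^ v < 1024 := Nat.xor_lt_two_pow (n := 10) hw (Finset.mem_range.1 hv1)
  obtain ⟨x, hx, hx'⟩ := (S_spec _ hj).resolve_left (by simp [hS])
  have hq : (w ^^^ v) >>> 5 < 32 := by rw [Nat.shiftRight_eq_div_pow]; omega
  have h1 : Ψ (a, c) = ψ (w ^^^ v) := by rw [ψ_xor, hw', ha, ← map_add]; simp
  refine h (a, c) (φ (x ^^^ (w ^^^ v) >>> 5)) (φ x) ?_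
  rw [h1]
  refine Prod.ext ?_ ?_
  · show φ ((w ^^^ v) >>> 5) = φ (x ^^^ (w ^^^ v) >>> 5) - φ x
    rw [φ_xor]; ring
  · show φ (w ^^^ v) = f _ - f _
    have : φ (w ^^^ v) = φ ((w ^^^ v) % 32) := by simp only [φ, dec_mod]
    rw [this, hx', φ_xor, f, f, enc_φ (xlt hx hq), enc_φ hx, CharTwo.sub_eq_add]

theorem notRDS (g : F → F) (h : ∀ c : F, ∃ x y, c = g x - g y) : ¬ GivesRDS g := by
  classical
  rintro ⟨N, lam, h1, h2, h3, h4⟩
  have hN : ∀ d ∈ N, d = 0 := by
    intro d hd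
    by_contra hd0
    obtain ⟨x, y, rfl⟩ := h d
    exact h2 _ hd hd0 ⟨_, ⟨x, rfl⟩, _, ⟨y, rfl⟩, fun e => hd0 (by rw [e, sub_self]), rfl⟩
  have : Fintype F := Fintype.ofFinite F
  set R : Finset F := Finset.univ.image g with hR
  have hRg : Set.range g = (R : Set F) := by simp [hR]
  rw [hRg] at h1 h3 h4
  rw [Set.ncard_coe_finset] at h3 h4
  rw [cardF] at h4
  have hc : R.offDiag.card = ∑ d ∈ Finset.univ.erase (0 : F), (R.offDiag.filter fun p => p.1 - p.2 = d).card :=
    Finset.card_eq_sum_card_fiberwise (f := fun p : F × F => p.1 - p.2) fun p hp => by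
      have := (Finset.mem_offDiag.1 (Finset.mem_coe.1 hp)).2.2
      simpa [sub_eq_zero] using this
  have hl : ∀ d ∈ Finset.univ.erase (0 : F), (R.offDiag.filter fun p => p.1 - p.2 = d).card = lam := by
    intro d hd
    rw [← h1 d (fun hN' => (Finset.mem_erase.1 hd).1 (hN d hN')), ← Set.ncard_coe_finset]
    congr 1
    ext p
    simp only [Finset.coe_filter, Finset.mem_offDiag, Set.mem_ofPred_eq, Finset.mem_coe, and_assoc]
  rw [Finset.sum_congr rfl hl, Finset.sum_const, Finset.card_erase_of_mem (Finset.mem_univ _), Finset.card_univ,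
    ← Nat.card_eq_fintype_card, cardF, Finset.offDiag_card, smul_eq_mul] at hc
  generalize R.card = k at hc h3 h4
  have h5 : k ≤ 30 := by omega
  interval_cases k <;> omega

theorem result : ∃ f : F → F, IsAPN f ∧ (∀ g, EAEquiv f g → ¬ GivesRDS g) ∧
    (∀ g, CCZEquiv f g → ¬ GivesRDS g) := by
  refine ⟨f, apn, ?_, ?_⟩
  · rintro g ⟨A, B, C, hg⟩
    apply notRDS
    let Ψ : F × F →+ F × F :=
      { toFun := fun p => (B.linear p.1, A.linear.symm (p.2 - C.linear p.1))
        map_zero' := by simp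
        map_add' := fun p q => by
          refine Prod.ext (by simp) ?_
          show A.linear.symm (p.2 + q.2 - C.linear (p.1 + q.1)) =
            A.linear.symm (p.2 - C.linear p.1) + A.linear.symm (q.2 - C.linear q.1)
          rw [← map_add, map_add C.linear]; congr 1; ring }
    refine key g Ψ ?_ ?_
    · intro p q hpq
      have h1 : B.linear p.1 = B.linear q.1 := congrArg Prod.fst hpq
      have h2 : A.linear.symm (p.2 - C.linear p.1) = A.linear.symm (q.2 - C.linear q.1) := congrArg Prod.snd hpq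
      have h3 := B.linear.injective h1
      have h4 := A.linear.symm.injective h2
      rw [h3] at h4
      exact Prod.ext h3 (sub_left_injective h4)
    · intro p x y hp
      obtain ⟨x', rfl⟩ := B.surjective x
      obtain ⟨y', rfl⟩ := B.surjective y
      have h1 : B.linear p.1 = B x' - B y' := congrArg Prod.fst hp
      have h2 : A.linear.symm (p.2 - C.linear p.1) = f (B x') - f (B y') := congrArg Prod.snd hp
      have h3 : p.1 = x' - y' := B.linear.injective (by
        rw [h1]; exact (B.toAffineMap.linearMap_vsub x' y').symm)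
      have h4 : p.2 - C.linear p.1 = A (f (B x')) - A (f (B y')) := by
        rw [(LinearEquiv.symm_apply_eq _).1 h2]; exact A.toAffineMap.linearMap_vsub _ _
      have h5 : C.linear p.1 = C x' - C y' := by rw [h3]; exact C.linearMap_vsub x' y'
      refine ⟨x', y', ?_⟩
      rw [hg, hg]
      linear_combination h4 + h5
  · rintro g ⟨Φ, hΦ⟩
    apply notRDS
    refine key g Φ.linear.symm.toLinearMap.toAddMonoidHom Φ.linear.symm.injective ?_
    intro p x y hp
    have h1 : Φ.linear.symm p = (x, f x) - (y, f y) := hp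
    have h2 : p = Φ (x, f x) - Φ (y, f y) := by
      rw [(LinearEquiv.symm_apply_eq _).1 h1]; exact Φ.toAffineMap.linearMap_vsub _ _
    have hx : Φ (x, f x) ∈ graph g := hΦ ▸ ⟨(x, f x), rfl, rfl⟩
    have hy : Φ (y, f y) ∈ graph g := hΦ ▸ ⟨(y, f y), rfl, rfl⟩
    refine ⟨(Φ (x, f x)).1, (Φ (y, f y)).1, ?_⟩
    rw [h2, Prod.snd_sub, hx, hy]

end Pool.Agent.Results.MP_abc6c1_co.InverseF32
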